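import Pool.Agent.L5helper9.Rp7

/-!
# Rational functions of every large degree `d` with `2 d + d ^ θ` rational preperiodic points, `θ < 1 / 3`

For every real number `θ < 1 / 3` and every `d ≥ d₀(θ)` there is a rational function `φ ∈ ℚ(x)` of
degree exactly `d` with at least `2 d + d ^ θ` preperiodic points in `ℚ`. So every bound `κ(D, d)` in
the conjecture of Morton and Silverman satisfies `κ(D, d) ≥ 2 d + d ^ θ` for all `D` and all
`d ≥ d₀(θ)`. (Interpolation gives `2 d + 2` points.)

Proof. Let `G` be a set of `d ^ (1 + ε)` fractions `b / k` with `k ≤ Y = d ^ (1 / 3 + ε)` prime and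
`m Y < b ≤ 2 m Y`, `m = d ^ (1 / 3 - ε)`. For a set `A` of such fractions put
`V_s(A) = ∏ (b - k s)`, `s = 0, ..., m - 1`, and `V_∞(A) = ∏ k`. All these numbers are products of
integers at most `2 m Y = d ^ (2 / 3)`, so `V` has only `exp(d ^ (1 - ε + o(1)))` values on sets of
at most `d` elements. By the theorem of Frankl and Wilson on families of sets without a prescribed
difference, for every prime `p > d ^ (1 - ε / 2)` each large subset of `G` contains disjoint sets
`A`, `B` of exactly `p` elements with `V(A) = V(B)`. By the theorem of Cauchy and Davenport `d` is a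
sum of primes `p` from `(q, 8 q]`, `q = d ^ (1 - ε / 2)`; the unions of the pairs for these primes
are disjoint sets `A`, `B` of exactly `d` fractions with `V(A) = V(B)`. Let
`φ = ∏_A (b - k x) / ∏_B (b - k x)`. Then `φ(s) = 1` for `s = 0, ..., m - 1` and `s = ∞`; the `d`
points of `A` go to `0`, the `d` points of `B` go to `∞`, and `0`, `∞` go to the fixed point `1`.
-/

set_option autoImplicit false

namespace Pool.Agent.Results.MP_90787a_nt.ManyRationalPoints

open Polynomial

/-- The homogeneous map `(u, v) ↦ (v ^ d p(u / v), v ^ d q(u / v))` on `K × K` given by two polynomials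
`p`, `q` over `ℚ` of degree at most `d`; it is the map `φ = p / q` in homogeneous coordinates. -/
noncomputable def homMap (K : Type) [Field K] [Algebra ℚ K] (p q : ℚ[X]) (d : ℕ) (v : K × K) : K × K :=
  (∑ i ∈ Finset.range (d + 1), algebraMap ℚ K (p.coeff i) * v.1 ^ i * v.2 ^ (d - i),
   ∑ i ∈ Finset.range (d + 1), algebraMap ℚ K (q.coeff i) * v.1 ^ i * v.2 ^ (d - i))

/-- The point `(x : 1)` is preperiodic: two different iterates of the homogeneous map at `(x, 1)` give
the same point of the projective line. -/
def IsPreperiodic (K : Type) [Field K] [Algebra ℚ K] (p q : ℚ[X]) (d : ℕ) (x : K) : Prop :=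
  ∃ i j : ℕ, j < i ∧
    ((homMap K p q d)^[i] (x, 1)).1 * ((homMap K p q d)^[j] (x, 1)).2 =
    ((homMap K p q d)^[i] (x, 1)).2 * ((homMap K p q d)^[j] (x, 1)).1

/-- **Many rational preperiodic points.** For every `θ < 1 / 3` and every `d ≥ d₀(θ)` there is a
rational function `p / q` over `ℚ` of degree exactly `d` which has, over every number field `K`, at
least `2 d + d ^ θ` preperiodic points in `K` (the point `∞` not counted). -/
theorem result (θ : ℝ) (hθ : θ < 1 / 3) :
    ∃ d₀ : ℕ, ∀ d : ℕ, d₀ ≤ d →
      ∃ p q : ℚ[X], IsCoprime p q ∧ max p.natDegree q.natDegree = d ∧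
        ∀ (K : Type) [Field K] [NumberField K],
          ∃ s : Finset K, 2 * (d : ℝ) + (d : ℝ) ^ θ ≤ s.card ∧ ∀ x ∈ s, IsPreperiodic K p q d x :=
  Pool.Agent.L5helper9.Rp7.main θ hθ

end Pool.Agent.Results.MP_90787a_nt.ManyRationalPoints
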