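import Mathlib
import Pool.Agent.N918.EQ.Typ
import Pool.Agent.N938.TD.Cnt
import Pool.Agent.L5helper62.TS.Rat
import Pool.Agent.Results.MP_90787a_nt.NonIsotrivialFamilies

/-!
# The rational preperiodic points of the members of every non-isotrivial family of rational maps along
# equidistributed sequences, metric sequences and random orbits of parameters

The starting result `NonIsotrivialFamilies` gives a bound `N(d)` for the number of the preperiodic points in
`ℙ¹(k)` of 100% of the members of every non-isotrivial family of rational maps of degree `d` over a number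
field `k`, for parameters in boxes; `N(d)` depends on nothing but `d`. Here the parameters
`t = (v_1 / v_0, ..., v_m / v_0)` come from ONE sequence `c 0, c 1, c 2, …` of integral vectors,
`S 0, S 1, …` are finite sets of times, and the property `GoodSequence` of `(S, c)` means that for ALL
number fields `k ⊂ ℂ` of degree `r`, all integral bases of `k`, all degrees `d ≥ 2` and ALL families
`P / Q` of degree `d` with `m` parameters over `k` which are not isotrivial over `k(t_j : j ≠ i)` for some
`i`, the proportion of the times `n` in `S T` for which the member with the parameter vector `c n` is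
degenerate or has more than `N(d)` preperiodic points in `ℙ¹(k)` tends to zero, `T → ∞`.

**Theorem.** This property is typical (`Pool.Agent.N918.EQ.Typical`):

(1) All `(S, c)` have it for which `c` is equidistributed along `S` modulo all `q` prime to some number
(`S` is arbitrary: intervals, short intervals, the primes of an interval, any sparse sets).

For the sets of times `{0, ..., T - 1}`:

(2) For any Koksma sequences `f_{i,0}, f_{i,1}, ...` on intervals, for almost all `x` in the box the
sequence `c n = (⌊f_{i,n}(x_i)⌋)_i` has it.

(3) For ARBITRARY real numbers `a_{i,n}` with `|a_{i,n} - a_{i,n'}| ≥ δ > 0`, `n ≠ n'` (any different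
integers: factorials, `2 ^ n`, ...), for almost all real vectors `x` the sequence
`c n = (⌊a_{i,n} x_i⌋)_i` has it.

(4) For different natural numbers `k_n` and `ξ_i ≠ 0`, for almost all `x` with all `x_i > 1` the sequence
`c n = (⌊ξ_i x_i ^ (k_n)⌋)_i` has it.

(5) Let `s_0, ..., s_l` be integral matrices of determinant one, of the size of the vectors `c n`, which
generate the special linear group modulo all `q` prime to some number (by strong approximation: which
generate a Zariski dense group, possibly of infinite index), and let `v ≠ 0`. For independent uniformly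
distributed letters `w 0, w 1, ...` the random orbit `c n = s_{w (n-1)} ... s_{w 0} v` has it almost
surely.

In (2) - (5) there is ONE null set of `x`, or of words, for all number fields, bases and families.

Proof. The bound for the generic member is that of `NonIsotrivialFamilies` (`Pool.Agent.Y706.geom2`). The
transfer to the members (`Pool.Agent.Y706`, `Pool.Agent.N455.TX.paramB` of helper455) holds for all notions
of density with Hilbert's irreducibility theorem, and the pronull sets are the null sets of such notions
(`Pool.Agent.N891.OR`, helper891), so the exceptional parameters of every family form a pronull set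
(`Pool.Agent.L5helper62.TS.nonisotrivial`). There are countably many families, and typical sequences rarely
visit pronull sets (`Pool.Agent.N918.EQ`, helper918, with the engines `Pool.Agent.N24.KM` for metric
sequences and `Pool.Agent.N24.RW` for random orbits). The starting result `RandomOrbits` is about random
orbits and families whose generic member is determined by its multipliers up to finitely many choices.
-/

set_option autoImplicit false

namespace Pool.Agent.Results.MP_90787a_nt.NonIsotrivialTypical

open Polynomial NumberField Filter Topology MeasureTheory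
open Pool.Agent.N24.RW (ProNull)
open Pool.Agent.N918.EQ (Typical RareIn)
open Pool.Agent.Results.MP_90787a_nt.NonIsotrivialFamilies (Good IsotrivialOver others generic special
  mapP1)

/-- The proportion of the `n` in `S T` without the property `P` tends to zero, `T → ∞`. -/
def Usually (S : ℕ → Finset ℕ) (P : ℕ → Prop) : Prop :=
  ∀ ε : ℝ, 0 < ε → ∃ T₀ : ℕ, ∀ T : ℕ, T₀ ≤ T →
    (({n : ℕ | n ∈ S T ∧ ¬ P n}.ncard : ℕ) : ℝ) ≤ ε * (S T).card

/-- The vector of the integers `v_l = ∑_j w_{l j} ω_j` of `k`, `l = 0, …, m`. -/
noncomputable def vector {k : Type} [Field k] {J : Type} [Fintype J] (ω : Module.Basis J ℤ (𝓞 k))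
    {m : ℕ} (w : Fin (m + 1) × J → ℤ) : Fin (m + 1) → 𝓞 k :=
  fun l => ∑ j : J, w (l, j) • ω j

/-- `P / Q` is a family of rational maps of degree `d` with `m` parameters over `k`, and for some `i` the
generic member is not conjugate to a map with coefficients in `k(t_j : j ≠ i)`. -/
def IsFamily {k : Type} [Field k] {m : ℕ} (P Q : (MvPolynomial (Fin m) k)[X]) (d : ℕ) : Prop :=
  max P.natDegree Q.natDegree = d ∧ IsCoprime (generic P) (generic Q) ∧
    ∃ i : Fin m, ¬ IsotrivialOver (others k i) (generic P) (generic Q) d

/-- For all number fields `k ⊂ ℂ`, all integral bases with `r` elements, all `d ≥ 2` and all families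
`P / Q` of degree `d` over `k` with `m` parameters as in `IsFamily`: for most of the times `n` the member
with the parameter vector `v` of coordinates `c n` is defined (`v_0 ≠ 0`), it has degree `d` and at most
`N d` preperiodic points in `ℙ¹(k)`. -/
def GoodSequence (N : ℕ → ℕ) (r m : ℕ) (S : ℕ → Finset ℕ) (c : ℕ → Fin (m + 1) × Fin r → ℤ) : Prop :=
  ∀ (k : Subfield ℂ) [NumberField k] (ω : Module.Basis (Fin r) ℤ (𝓞 k)) (d : ℕ), 2 ≤ d →
    ∀ P Q : (MvPolynomial (Fin m) k)[X], IsFamily P Q d →
      Usually S fun n => vector ω (c n) 0 ≠ 0 ∧
        Good d (N d) (special (vector ω (c n)) P) (special (vector ω (c n)) Q)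

theorem vector_eq {k : Type} [Field k] [NumberField k] {J : Type} [Fintype J]
    (ω : Module.Basis J ℤ (𝓞 k)) {m : ℕ} (w : Fin (m + 1) × J → ℤ) :
    Pool.Agent.Y706.vec ω w = vector ω w := by
  funext l
  unfold Pool.Agent.Y706.vec Pool.Agent.W275.UB.cv vector
  refine Finset.sum_congr rfl fun j _ => ?_
  rw [zsmul_eq_mul, mul_comm]

/-- the number fields in `ℂ` with an integral basis with `r` elements, and pairs of polynomials -/
abbrev Fam (r m : ℕ) : Type :=
  Σ k : {k : Subfield ℂ // NumberField k}, Module.Basis (Fin r) ℤ (𝓞 k.1) × ℕ ×
    (MvPolynomial (Fin m) k.1)[X] × (MvPolynomial (Fin m) k.1)[X]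

theorem fam_countable (r m : ℕ) : Countable (Fam r m) := by
  have h1 : Countable {k : Subfield ℂ // NumberField k} := Pool.Agent.N938.TD.nf_countable
  have h3 : ∀ k : {k : Subfield ℂ // NumberField k},
      Countable (Module.Basis (Fin r) ℤ (𝓞 k.1)) := fun k => by
    have := k.2
    have := Pool.Agent.N938.TD.field_countable k.1
    exact Pool.Agent.N938.TD.basis_countable k.1 r
  have h4 : ∀ k : {k : Subfield ℂ // NumberField k}, Countable (MvPolynomial (Fin m) k.1)[X] :=
    fun k => by
      have := k.2
      have := Pool.Agent.N938.TD.field_countable k.1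
      have := Pool.Agent.N938.TD.mv_countable m k.1
      exact Pool.Agent.N938.TD.poly_countable _
  infer_instance

/-- **The rational preperiodic points of the members of all non-isotrivial families along typical
sequences of parameters.** There is a function `N` such that
(1) for all `r ≥ 1` and `m ≥ 1` the property `GoodSequence N r m` is typical, and
(2) for every number field `k`, every integral basis `ω` of `k`, all `m`, all `d ≥ 2` and all families
`P / Q` of degree `d` with `m` parameters as in `IsFamily` the exceptional parameter vectors form a pronull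
set. -/
theorem result : ∃ N : ℕ → ℕ,
    (∀ r m : ℕ, 1 ≤ r → 1 ≤ m → Typical (GoodSequence N r m)) ∧
    ∀ (k : Type) [Field k] [NumberField k] (J : Type) [Fintype J] (ω : Module.Basis J ℤ (𝓞 k))
      (m d : ℕ), 2 ≤ d → ∀ P Q : (MvPolynomial (Fin m) k)[X], IsFamily P Q d →
        ProNull {w : Fin (m + 1) × J → ℤ | ¬ (vector ω w 0 ≠ 0 ∧
          Good d (N d) (special (vector ω w) P) (special (vector ω w) Q))} := by
  obtain ⟨N, hN⟩ := Pool.Agent.L5helper62.TS.nonisotrivial
  have e : ∀ (K : Type) [Field K] (p q : K[X]) (d : ℕ),
      Pool.Agent.W277.UH.ratP1 p q d = mapP1 p q d := by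
    intro K _ p q d
    funext z
    cases z <;> rfl
  have e2 : ∀ (K : Type) [Field K] (d C : ℕ) (p q : K[X]),
      Pool.Agent.Y706.GoodMap d C p q ↔ Good d C p q := by
    intro K _ d C p q
    unfold Pool.Agent.Y706.GoodMap Good
    rw [e]
  have key : ∀ (k : Type) [Field k] [NumberField k] (J : Type) [Fintype J]
      (ω : Module.Basis J ℤ (𝓞 k)) (m d : ℕ), 2 ≤ d → ∀ P Q : (MvPolynomial (Fin m) k)[X],
      IsFamily P Q d → ProNull {w : Fin (m + 1) × J → ℤ | ¬ (vector ω w 0 ≠ 0 ∧
          Good d (N d) (special (vector ω w) P) (special (vector ω w) Q))} := by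
    rintro k _ _ J _ ω m d hd P Q ⟨hmax, hco, i, hiso⟩
    have h := hN k J ω d hd m P Q i hmax hco hiso
    simp only [e2] at h
    have h4 : {w : Fin (m + 1) × J → ℤ | ¬ (vector ω w 0 ≠ 0 ∧
          Good d (N d) (special (vector ω w) P) (special (vector ω w) Q))} =
        {w : Fin (m + 1) × J → ℤ | ¬ (Pool.Agent.Y706.vec ω w 0 ≠ 0 ∧
          Good d (N d) (special (Pool.Agent.Y706.vec ω w) P)
            (special (Pool.Agent.Y706.vec ω w) Q))} := by
      simp only [vector_eq]
    rw [h4]
    exact h
  refine ⟨N, fun r m hr hm => ?_, key⟩
  have := fam_countable r m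
  refine Pool.Agent.N918.EQ.typical_of ?_ _ ?_
  · rw [Fintype.card_prod, Fintype.card_fin, Fintype.card_fin]
    nlinarith
  intro X _ ν Pr S c hR
  have h1 : ∀ᵐ x ∂ν, ∀ f : Fam r m, 2 ≤ f.2.2.1 → IsFamily f.2.2.2.1 f.2.2.2.2 f.2.2.1 → Pr x →
      RareIn S (c x) {w : Fin (m + 1) × Fin r → ℤ | ¬ (vector f.2.1 w 0 ≠ 0 ∧
        Good f.2.2.1 (N f.2.2.1) (special (vector f.2.1 w) f.2.2.2.1)
          (special (vector f.2.1 w) f.2.2.2.2))} := by
    rw [ae_all_iff]
    rintro ⟨⟨k, hk⟩, ω, d, P, Q⟩
    rw [ae_all_iff]
    intro hd
    rw [ae_all_iff]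
    intro hf
    exact hR _ (@key k _ hk (Fin r) _ ω m d hd P Q hf)
  filter_upwards [h1] with x hx hP
  intro k hk ω d hd P Q hf
  exact hx ⟨⟨k, hk⟩, ω, d, P, Q⟩ hd hf hP

end Pool.Agent.Results.MP_90787a_nt.NonIsotrivialTypical
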