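import Mathlib
import Pool.Agent.N918.EQ.Typ
import Pool.Agent.N938.TD.Cnt
import Pool.Agent.L5helper62.TS.Poly
import Pool.Agent.Results.MP_90787a_nt.StrongPolynomialFamilies

/-!
# The preperiodic points of bounded degree of the members of every non-isotrivial family of polynomials
# along equidistributed sequences, metric sequences and random orbits of parameters

The starting result `StrongPolynomialFamilies` gives an explicit bound `M(d, B) d ^ M(d, B)` for the number of
the preperiodic points of degree at most `B` over `k` of 100% of the members of every non-isotrivial family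
of polynomials of degree `d` over a number field `k`, for parameters in boxes. Here the parameters
`t = (v_1 / v_0, ..., v_m / v_0)` come from ONE sequence `c 0, c 1, c 2, …` of integral vectors,
`S 0, S 1, …` are finite sets of times, and the property `GoodSequence` of `(S, c)` means that for ALL
number fields `k ⊂ ℂ` of degree `r`, all integral bases of `k`, all degrees `d ≥ 2`, all `B ≥ 1` and ALL
non-isotrivial families of polynomials of degree `d` with `m` parameters over `k` the proportion of the
times `n` in `S T` for which the member with the parameter vector `c n` is degenerate or has more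
preperiodic points of degree at most `B` tends to zero, `T → ∞`.

**Theorem.** This property is typical (`Pool.Agent.N918.EQ.Typical`):

(1) All `(S, c)` have it for which `c` is equidistributed along `S` modulo all `q` prime to some number
(`S` is arbitrary: intervals, short intervals, the primes of an interval, any sparse sets).

For the sets of times `{0, ..., T - 1}`:

(2) For any Koksma sequences `f_{i,0}, f_{i,1}, ...` on intervals, for almost all `x` in the box the
sequence `c n = (⌊f_{i,n}(x_i)⌋)_i` has it.

(3) For ARBITRARY real numbers `a_{i,n}` with `|a_{i,n} - a_{i,n'}| ≥ δ > 0`, `n ≠ n'` (any different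
integers: factorials, `2 ^ n`, ...), for almost all real vectors `x` the sequence
`c n = (⌊a_{i,n} x_i⌋)_i` has it.

(4) For different natural numbers `k_n` and `ξ_i ≠ 0`, for almost all `x` with all `x_i > 1` the sequence
`c n = (⌊ξ_i x_i ^ (k_n)⌋)_i` has it.

(5) Let `s_0, ..., s_l` be integral matrices of determinant one, of the size of the vectors `c n`, which
generate the special linear group modulo all `q` prime to some number (by strong approximation: which
generate a Zariski dense group, possibly of infinite index), and let `v ≠ 0`. For independent uniformly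
distributed letters `w 0, w 1, ...` the random orbit `c n = s_{w (n-1)} ... s_{w 0} v` has it almost
surely.

In (2) - (5) there is ONE null set of `x`, or of words, for all number fields, bases, families and `B`.

Proof. The bound for the generic member is that of `StrongPolynomialFamilies` (`Pool.Agent.Y706.geomB`). The
transfer to the members (`Pool.Agent.Y706`, `Pool.Agent.N455.TX.paramB` of helper455) holds for all notions
of density with Hilbert's irreducibility theorem, and the pronull sets are the null sets of such notions
(`Pool.Agent.N891.OR`, helper891), so the exceptional parameters of every family form a pronull set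
(`Pool.Agent.L5helper62.TS.polyPro`). There are countably many families, and typical sequences rarely
visit pronull sets (`Pool.Agent.N918.EQ`, helper918, with the engines `Pool.Agent.N24.KM` for metric
sequences and `Pool.Agent.N24.RW` for random orbits).
-/

set_option autoImplicit false

namespace Pool.Agent.Results.MP_90787a_nt.PolynomialsTypical

open Polynomial NumberField Filter Topology MeasureTheory
open Pool.Agent.N24.RW (ProNull)
open Pool.Agent.N918.EQ (Typical RareIn)
open Pool.Agent.Results.MP_90787a_nt.StrongPolynomialFamilies (generic Isotrivial special preper M)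

/-- The proportion of the `n` in `S T` without the property `P` tends to zero, `T → ∞`. -/
def Usually (S : ℕ → Finset ℕ) (P : ℕ → Prop) : Prop :=
  ∀ ε : ℝ, 0 < ε → ∃ T₀ : ℕ, ∀ T : ℕ, T₀ ≤ T →
    (({n : ℕ | n ∈ S T ∧ ¬ P n}.ncard : ℕ) : ℝ) ≤ ε * (S T).card

/-- The vector of the integers `v_l = ∑_j w_{l j} ω_j` of `k`, `l = 0, …, m`. -/
noncomputable def vector {k : Type} [Field k] {J : Type} [Fintype J] (ω : Module.Basis J ℤ (𝓞 k))
    {m : ℕ} (w : Fin (m + 1) × J → ℤ) : Fin (m + 1) → 𝓞 k :=
  fun l => ∑ j : J, w (l, j) • ω j

/-- The member of the family `P` at `t = (v_1 / v_0, ..., v_m / v_0)` is defined (`v_0 ≠ 0`), it has degree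
`d` and at most `M d B * d ^ M d B` preperiodic points of degree at most `B` over `k`. -/
def Good {k : Type} [Field k] {m : ℕ} (P : (MvPolynomial (Fin m) k)[X]) (d B : ℕ)
    (v : Fin (m + 1) → 𝓞 k) : Prop :=
  v 0 ≠ 0 ∧ (special v P).natDegree = d ∧
    (preper (special v P) B).encard ≤ ((M d B * d ^ M d B : ℕ) : ℕ∞)

/-- For all number fields `k ⊂ ℂ`, all integral bases with `r` elements, all `d ≥ 2`, `B ≥ 1` and all
non-isotrivial families `P` of polynomials of degree `d` over `k` with `m` parameters: for most of the
times `n` the member with the parameter vector of coordinates `c n` is good. -/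
def GoodSequence (r m : ℕ) (S : ℕ → Finset ℕ) (c : ℕ → Fin (m + 1) × Fin r → ℤ) : Prop :=
  ∀ (k : Subfield ℂ) [NumberField k] (ω : Module.Basis (Fin r) ℤ (𝓞 k)) (d B : ℕ), 2 ≤ d → 1 ≤ B →
    ∀ P : (MvPolynomial (Fin m) k)[X], P.natDegree = d → ¬ Isotrivial k (generic P) →
      Usually S fun n => Good P d B (vector ω (c n))

theorem vector_eq {k : Type} [Field k] [NumberField k] {J : Type} [Fintype J]
    (ω : Module.Basis J ℤ (𝓞 k)) {m : ℕ} (w : Fin (m + 1) × J → ℤ) :
    Pool.Agent.Y706.vec ω w = vector ω w := by
  funext l
  unfold Pool.Agent.Y706.vec Pool.Agent.W275.UB.cv vector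
  refine Finset.sum_congr rfl fun j _ => ?_
  rw [zsmul_eq_mul, mul_comm]

theorem key {k : Type} [Field k] [NumberField k] {J : Type} [Fintype J]
    (ω : Module.Basis J ℤ (𝓞 k)) {m d B : ℕ} (hd : 2 ≤ d) (hB : 1 ≤ B)
    (P : (MvPolynomial (Fin m) k)[X]) (hP : P.natDegree = d) (hiso : ¬ Isotrivial k (generic P)) :
    ProNull {w : Fin (m + 1) × J → ℤ | ¬ Good P d B (vector ω w)} := by
  have h := Pool.Agent.L5helper62.TS.polyPro k J ω d hd B hB m P hP hiso
  have h4 : {w : Fin (m + 1) × J → ℤ | ¬ Good P d B (vector ω w)} =
      {w : Fin (m + 1) × J → ℤ | ¬ Good P d B (Pool.Agent.Y706.vec ω w)} := by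
    simp only [vector_eq]
  rw [h4]
  exact h

/-- the number fields in `ℂ` with an integral basis with `r` elements, and polynomials -/
abbrev Fam (r m : ℕ) : Type :=
  Σ k : {k : Subfield ℂ // NumberField k}, Module.Basis (Fin r) ℤ (𝓞 k.1) × ℕ × ℕ ×
    (MvPolynomial (Fin m) k.1)[X]

theorem fam_countable (r m : ℕ) : Countable (Fam r m) := by
  have h1 : Countable {k : Subfield ℂ // NumberField k} := Pool.Agent.N938.TD.nf_countable
  have h3 : ∀ k : {k : Subfield ℂ // NumberField k},
      Countable (Module.Basis (Fin r) ℤ (𝓞 k.1)) := fun k => by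
    have := k.2
    have := Pool.Agent.N938.TD.field_countable k.1
    exact Pool.Agent.N938.TD.basis_countable k.1 r
  have h4 : ∀ k : {k : Subfield ℂ // NumberField k}, Countable (MvPolynomial (Fin m) k.1)[X] :=
    fun k => by
      have := k.2
      have := Pool.Agent.N938.TD.field_countable k.1
      have := Pool.Agent.N938.TD.mv_countable m k.1
      exact Pool.Agent.N938.TD.poly_countable _
  infer_instance

/-- **The preperiodic points of bounded degree of the members of all non-isotrivial families of polynomials
along typical sequences of parameters.** (1) For all `r ≥ 1` and `m ≥ 1` the property `GoodSequence r m` is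
typical. (2) For every number field `k`, every integral basis `ω` of `k`, all `m`, `d ≥ 2`, `B ≥ 1` and all
non-isotrivial families of polynomials of degree `d` with `m` parameters the exceptional parameter vectors
form a pronull set. -/
theorem result :
    (∀ r m : ℕ, 1 ≤ r → 1 ≤ m → Typical (GoodSequence r m)) ∧
    ∀ (k : Type) [Field k] [NumberField k] (J : Type) [Fintype J] (ω : Module.Basis J ℤ (𝓞 k))
      (m d B : ℕ), 2 ≤ d → 1 ≤ B → ∀ P : (MvPolynomial (Fin m) k)[X], P.natDegree = d →
        ¬ Isotrivial k (generic P) →
          ProNull {w : Fin (m + 1) × J → ℤ | ¬ Good P d B (vector ω w)} := by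
  refine ⟨fun r m hr hm => ?_, fun k _ _ J _ ω m d B hd hB P hP hiso => key ω hd hB P hP hiso⟩
  have := fam_countable r m
  refine Pool.Agent.N918.EQ.typical_of ?_ _ ?_
  · rw [Fintype.card_prod, Fintype.card_fin, Fintype.card_fin]
    nlinarith
  intro X _ ν Pr S c hR
  have h1 : ∀ᵐ x ∂ν, ∀ f : Fam r m, 2 ≤ f.2.2.1 → 1 ≤ f.2.2.2.1 → f.2.2.2.2.natDegree = f.2.2.1 →
      ¬ Isotrivial f.1.1 (generic f.2.2.2.2) → Pr x →
      RareIn S (c x) {w : Fin (m + 1) × Fin r → ℤ |
        ¬ Good f.2.2.2.2 f.2.2.1 f.2.2.2.1 (vector f.2.1 w)} := by
    rw [ae_all_iff]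
    rintro ⟨⟨k, hk⟩, ω, d, B, P⟩
    rw [ae_all_iff]
    intro hd
    rw [ae_all_iff]
    intro hB
    rw [ae_all_iff]
    intro hP
    rw [ae_all_iff]
    intro hiso
    exact hR _ (@key k _ hk (Fin r) _ ω m d B hd hB P hP hiso)
  filter_upwards [h1] with x hx hP'
  intro k hk ω d B hd hB P hP hiso
  exact hx ⟨⟨k, hk⟩, ω, d, B, P⟩ hd hB hP hiso hP'

end Pool.Agent.Results.MP_90787a_nt.PolynomialsTypical
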