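import Mathlib
import Pool.Agent.N918.EQ.Typ
import Pool.Agent.Results.MP_90787a_nt.RandomOrbits

/-!
# Preperiodic points of bounded degree of the members of every non-isotrivial family of rational maps
over a number field along equidistributed sequences, metric sequences and random orbits

The starting result `RandomOrbits` gives a bound `N(B, d, A)` for the number of the preperiodic points of
degree at most `B` of the members of all non-isotrivial families of rational maps over a number field
whose generic member is determined by its multipliers up to finitely many choices, for 100% of the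
parameters along random orbits of thin groups. The starting results on boxes are `StrongFamilies` and
`NonIsotrivialFamilies`. Here the parameters `t = (v_1 / v_0, ..., v_m / v_0)` come from ONE sequence
`c 0, c 1, c 2, …` of integral vectors, `S 0, S 1, …` are finite sets of times, and the property
`GoodSequence` of `(S, c)` means that for ALL these families over the number field, all degrees, all `B`
and `A`, the proportion of the times `n` in `S T` for which the member with the parameter vector `c n` is
degenerate or has more than `N(B, d, A)` preperiodic points of degree at most `B` tends to zero, `T → ∞`.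

**Theorem.** This property is typical (`Pool.Agent.N918.EQ.Typical`):

(1) All `(S, c)` have it for which `c` is equidistributed along `S` modulo all `q` prime to some number
(`S` is arbitrary: intervals, short intervals, the primes of an interval, any sparse sets).

For the sets of times `{0, ..., T - 1}`:

(2) For any Koksma sequences `f_{i,0}, f_{i,1}, ...` on intervals, for almost all `x` in the box the
sequence `c n = (⌊f_{i,n}(x_i)⌋)_i` has it.

(3) For ARBITRARY real numbers `a_{i,n}` with `|a_{i,n} - a_{i,n'}| ≥ δ > 0`, `n ≠ n'` (any different
integers: factorials, `2 ^ n`, ...), for almost all real vectors `x` the sequence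
`c n = (⌊a_{i,n} x_i⌋)_i` has it.

(4) For different natural numbers `k_n` and `ξ_i ≠ 0`, for almost all `x` with all `x_i > 1` the sequence
`c n = (⌊ξ_i x_i ^ (k_n)⌋)_i` has it.

(5) (The starting result `RandomOrbits`.) Random orbits of groups of integral matrices which are dense
modulo almost all integers have it almost surely.

In (2) - (5) there is ONE null set of `x`, or of words, for all families, degrees and `B`, `A`.

Proof. The exceptional parameters of every family form a pronull set (the first part of the starting
result `RandomOrbits`, by helpers 820, 455 and 891), there are countably many families, and typical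
sequences rarely visit pronull sets (`Pool.Agent.N918.EQ`, helper918, with the engines
`Pool.Agent.N24.KM` for metric sequences and `Pool.Agent.N24.RW` for random orbits).
-/

set_option autoImplicit false

namespace Pool.Agent.Results.MP_90787a_nt.TypicalSequences

open Polynomial NumberField Filter Topology MeasureTheory
open Pool.Agent.N24.RW (ProNull)
open Pool.Agent.N918.EQ (Typical RareIn)
open Pool.Agent.Results.MP_90787a_nt.RandomOrbits (Good IsFamily point countable_mv countable_poly)

/-- The proportion of the `n` in `S T` without the property `P` tends to zero, `T → ∞`. -/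
def Usually (S : ℕ → Finset ℕ) (P : ℕ → Prop) : Prop :=
  ∀ ε : ℝ, 0 < ε → ∃ T₀ : ℕ, ∀ T : ℕ, T₀ ≤ T →
    (({n : ℕ | n ∈ S T ∧ ¬ P n}.ncard : ℕ) : ℝ) ≤ ε * (S T).card

/-- For all families `P / Q` over `k(t_1, ..., t_m)` as in `IsFamily`, of all degrees `d ≥ 2`, and all `A`
and `B ≥ 1`: for most of the times `n` the member with the parameter vector `c n` has degree `d` and at
most `N B d A` preperiodic points of degree at most `B` over `k`. -/
def GoodSequence (N : ℕ → ℕ → ℕ → ℕ) {k : Type} [Field k] [NumberField k] {J : Type} [Fintype J]
    (ω : Module.Basis J ℤ (𝓞 k)) (m : ℕ) (S : ℕ → Finset ℕ) (c : ℕ → Fin (m + 1) × J → ℤ) : Prop :=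
  ∀ d B A : ℕ, 2 ≤ d → 1 ≤ B → ∀ P Q : (MvPolynomial (Fin m) k)[X], IsFamily P Q d A →
    Usually S fun n => Good P Q d B (N B d A) (point ω (c n))

/-- **The preperiodic points of the members of all non-isotrivial families along typical sequences of
parameters.** There is a function `N` such that for every number field `k` (of any degree), every integral
basis `ω` of `k` and every `m ≥ 1` the property `GoodSequence N ω m` is typical. -/
theorem result : ∃ N : ℕ → ℕ → ℕ → ℕ, ∀ (k : Type) [Field k] [NumberField k] (J : Type)
    [Fintype J] [DecidableEq J] (ω : Module.Basis J ℤ (𝓞 k)) (m : ℕ), 1 ≤ m →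
    Typical (GoodSequence N ω m) := by
  obtain ⟨N, hN⟩ := Pool.Agent.Results.MP_90787a_nt.RandomOrbits.result
  refine ⟨N, ?_⟩
  intro k _ _ J _ _ ω m hm
  have key := (hN k J ω m).1
  obtain ⟨j0⟩ : Nonempty J := ω.index_nonempty
  have hk : Countable k := (Module.finBasis ℚ k).equivFun.injective.countable
  have c1 : Countable (MvPolynomial (Fin m) k) := countable_mv _ _
  have c2 : Countable (MvPolynomial (Fin m) k)[X] := countable_poly _
  refine Pool.Agent.N918.EQ.typical_of ?_ _ ?_
  · rw [Fintype.card_prod, Fintype.card_fin]
    have hJ : 0 < Fintype.card J := Fintype.card_pos_iff.2 ⟨j0⟩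
    nlinarith
  intro X _ ν Pr S c hR
  have h1 : ∀ᵐ x ∂ν, ∀ d B A : ℕ, 2 ≤ d → 1 ≤ B → ∀ P Q : (MvPolynomial (Fin m) k)[X],
      IsFamily P Q d A → Pr x →
        RareIn S (c x) {v | ¬ Good P Q d B (N B d A) (point ω v)} := by
    simp only [ae_all_iff]
    intro d B A hd hB P Q hPQ
    have h2 := hR _ (key d B A hd hB P Q hPQ)
    simpa only [ae_all_iff] using h2
  filter_upwards [h1] with x hx hP
  intro d B A hd hB P Q hPQ
  exact hx d B A hd hB P Q hPQ hP

end Pool.Agent.Results.MP_90787a_nt.TypicalSequences
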